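import Pool.Agent.W34.GB.Stm

/-!
# GZ-P5: the p-adic side, from the three pointwise bounds and the prime sum
-/

set_option autoImplicit false

open Filter Topology Pool.Agent.W34.GB

namespace Pool.Agent.W215.GZ

theorem PMain_of : Pbig → Pmed → Psmall → PSum → PMain := by
  intro hbig hmed hsmall hsum σ hσ
  obtain ⟨D, hD⟩ := hsmall
  filter_upwards [hsum σ D hσ, eventually_ge_atTop 3] with h hn1 hn q w u v hu
  obtain ⟨B, hB⟩ : ∃ B : ℕ → ℝ, B = fun p => if 2 * h < p then (p : ℝ) ^ (EB h σ p) else
      if 10 * h + 8 < p ^ 2 then (p : ℝ) ^ (EM h σ p) else (p : ℝ) ^ (ES D h p) := ⟨_, rfl⟩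
  refine ⟨PQ h, B, ?_, ?_, ?_, ?_⟩
  · intro p hp
    unfold PQ at hp
    rw [Finset.mem_filter] at hp
    have hp0 : (0 : ℝ) < p := by exact_mod_cast hp.2.pos
    refine ⟨hp.2, ?_⟩
    rw [hB]
    simp only
    split_ifs
    · positivity
    · positivity
    · positivity
  · intro p hp
    unfold PQ at hp
    rw [Finset.mem_filter] at hp
    have : Fact p.Prime := ⟨hp.2⟩
    rw [hB]
    simp only
    split_ifs with h1 h2
    · have h := hbig h σ q p w u v hσ hu (by omega) h1
      exact_mod_cast h
    · have h := hmed h σ q p w u v hσ hu (by omega) (by omega) h2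
      exact_mod_cast h
    · have h := hD h σ q p w u v hσ hu (by omega) (by omega)
      exact_mod_cast h
  · intro p hp hpS
    have : Fact p.Prime := ⟨hp⟩
    have h1 : 8 * h + 4 ≤ p := by
      by_contra hcon
      apply hpS
      unfold PQ
      rw [Finset.mem_filter, Finset.mem_range]
      exact ⟨by omega, hp⟩
    have h' := hbig h σ q p w u v hσ hu (by omega) (by omega)
    have h2 : EB h σ p = 0 := by
      unfold EB t1 t2 j0
      split_ifs <;> omega
    rw [h2, pow_zero] at h'
    exact h'
  · apply hn1 (fun p => Real.log (B p))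
    · intro p hp h1
      rw [hB]
      simp only [h1, if_true]
      rw [Real.log_pow]
    · intro p hp h1 h2
      rw [hB]
      simp only [h2, if_true, if_neg (by omega : ¬ 2 * h < p)]
      rw [Real.log_pow]
    · intro p hp h1
      have h8 : p ≤ 2 * h := by
        by_contra hcon
        have h9 : 2 * h + 1 ≤ p := by omega
        have h10 : (2 * h + 1) ^ 2 ≤ p ^ 2 := Nat.pow_le_pow_left h9 2
        nlinarith
      rw [hB]
      simp only [if_neg (by omega : ¬ 2 * h < p), if_neg (by omega : ¬ 10 * h + 8 < p ^ 2)]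
      rw [Real.log_pow]

end Pool.Agent.W215.GZ
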